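import Pool.Agent.MP_3ce0a0_al.H79.XS
import Pool.Agent.MP_3ce0a0_al.H79.XG
import Pool.Agent.MP_3ce0a0_al.H79.XB

/-
Traces in rank two and three.
-/

namespace Pool.Agent.MP_3ce0a0_al.H88

open Equiv Module Finset Pool.Agent.MP_3ce0a0_al.H62.Inst Pool.Agent.MP_3ce0a0_al.H79.X

section lin
variable {H : Type} [AddCommGroup H] [Module ℂ H] {f g : End ℂ H} {Q : Submodule ℂ H}

lemma keeps_part (hf : Keeps f Q) (hc : ∀ v ∈ Q, f (g v) = g (f v)) (c : ℂ) :
    Keeps f (Q ⊓ End.eigenspace g c) := by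
  intro v hv
  refine ⟨hf v hv.1, End.mem_eigenspace_iff.2 ?_⟩
  rw [← hc v hv.1, End.mem_eigenspace_iff.1 hv.2, map_smul]

variable [FiniteDimensional ℂ H]

/-- splitting a trace along an involution. -/
lemma split (hg : Keeps g Q) (hgg : ∀ v ∈ Q, g (g v) = v) (hf : Keeps f Q)
    (hc : ∀ v ∈ Q, f (g v) = g (f v)) :
    trOn f Q = trOn f (Q ⊓ End.eigenspace g 1) + trOn f (Q ⊓ End.eigenspace g (-1)) ∧
    trOn (f * g) Q = trOn f (Q ⊓ End.eigenspace g 1) - trOn f (Q ⊓ End.eigenspace g (-1)) := by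
  have d : Disjoint (Q ⊓ End.eigenspace g 1) (Q ⊓ End.eigenspace g (-1)) := by
    rw [Submodule.disjoint_def]
    intro v h1 h2
    have e1 := End.mem_eigenspace_iff.1 h1.2
    have e2 := End.mem_eigenspace_iff.1 h2.2
    have : (2 : ℂ) • v = 0 := by
      rw [e1, one_smul, neg_smul, one_smul] at e2
      rw [two_smul]
      exact add_eq_zero_iff_eq_neg.2 e2
    exact (smul_eq_zero.1 this).resolve_left two_ne_zero
  have s : Q ⊓ End.eigenspace g 1 ⊔ Q ⊓ End.eigenspace g (-1) = Q := by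
    refine le_antisymm (sup_le inf_le_left inf_le_left) fun v hv => ?_
    have e : v = (1 / 2 : ℂ) • (v + g v) + (1 / 2 : ℂ) • (v - g v) := by module
    rw [e]
    refine Submodule.add_mem_sup (Submodule.smul_mem _ _ ⟨Q.add_mem hv (hg v hv), ?_⟩)
      (Submodule.smul_mem _ _ ⟨Q.sub_mem hv (hg v hv), ?_⟩)
    · refine End.mem_eigenspace_iff.2 ?_
      rw [map_add, hgg v hv, one_smul, add_comm]
    · refine End.mem_eigenspace_iff.2 ?_
      rw [map_sub, hgg v hv, neg_smul, one_smul, neg_sub]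
  have k1 := keeps_part hf hc 1
  have k2 := keeps_part hf hc (-1)
  have g1 := keeps_part (g := g) hg (fun _ _ => rfl) 1
  have g2 := keeps_part (g := g) hg (fun _ _ => rfl) (-1)
  constructor
  · rw [← trOn_sup k1 k2 d, s]
  · have a1 : trOn (f * g) (Q ⊓ End.eigenspace g 1) = trOn f (Q ⊓ End.eigenspace g 1) :=
      trOn_congr fun v hv => by rw [End.mul_apply, End.mem_eigenspace_iff.1 hv.2, one_smul]
    have a2 : trOn (f * g) (Q ⊓ End.eigenspace g (-1)) =
        trOn ((-1 : ℂ) • f) (Q ⊓ End.eigenspace g (-1)) :=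
      trOn_congr fun v hv => by
        rw [End.mul_apply, End.mem_eigenspace_iff.1 hv.2, map_smul, LinearMap.smul_apply]
    have a := trOn_sup (k1.mul g1) (k2.mul g2) d
    rw [s, a1, a2, trOn_smul k2] at a
    rw [a]
    ring

/-- dimensions attached to an operator of order four are traces. -/
lemma dims {s e : End ℂ H} (hs : Keeps s Q) (h1 : s * s = e) (h2 : e * e = 1) :
    2 * (finrank ℂ (Q ⊓ End.eigenspace e 1 : Submodule ℂ H) : ℂ) = trOn 1 Q + trOn e Q ∧
    4 * (finrank ℂ (Q ⊓ End.eigenspace e 1 ⊓ End.eigenspace s 1 : Submodule ℂ H) : ℂ) =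
      trOn 1 Q + trOn e Q + trOn s Q + trOn (s * e) Q := by
  have he : Keeps e Q := h1 ▸ hs.mul hs
  have hee : ∀ v ∈ Q, e (e v) = v := fun v _ => by rw [← End.mul_apply, h2, End.one_apply]
  have hc : ∀ v ∈ Q, s (e v) = e (s v) := fun v _ => by rw [← h1]; rfl
  obtain ⟨a1, a2⟩ := split he hee (keeps_one Q) fun _ _ => rfl
  obtain ⟨b1, b2⟩ := split he hee hs hc
  have hss : ∀ v ∈ Q ⊓ End.eigenspace e 1, s (s v) = v := fun v hv => by
    rw [← End.mul_apply, h1, End.mem_eigenspace_iff.1 hv.2, one_smul]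
  obtain ⟨c1, c2⟩ := split (keeps_part hs hc 1) hss (keeps_one _) fun _ _ => rfl
  rw [one_mul] at a2 c2
  rw [← trOn_one, ← trOn_one]
  constructor
  · linear_combination -a1 - a2
  · linear_combination -a1 - a2 - b1 - b2 - 2 * c1 - 2 * c2

/-- a unipotent factor inverted by an involution does not change the trace. -/
lemma tr_uni {e u u' x : End ℂ H} (he : Keeps e Q) (hu : Keeps u Q) (hx : Keeps x Q)
    (h0 : u' * u = 1) (h0' : u * u' = 1) (h1 : e * u * e = u') (h2 : e * e = 1)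
    (c1 : Commute x e) (c2 : Commute x u) (hn : UniOn u Q) : trOn (e * u * x) Q = trOn (e * x) Q := by
  obtain ⟨k, hk⟩ := hn
  have q : e * u * x - e * x = e * (u - 1) * x := by noncomm_ring
  have cN : Commute x (u - 1) := c2.sub_right (Commute.one_right x)
  have cu : Commute u' (u - 1) :=
    Commute.sub_right (show u' * u = u * u' by rw [h0, h0']) (Commute.one_right u')
  have sq : e * (u - 1) * x * (e * (u - 1) * x) = -(u' * (x * x)) * (u - 1) ^ 2 := by
    have t1 : e * (u - 1) * e = -(u' * (u - 1)) := by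
      rw [mul_sub, sub_mul, h1, mul_one, h2, mul_sub, h0, mul_one, neg_sub]
    calc e * (u - 1) * x * (e * (u - 1) * x)
        = e * (u - 1) * (x * e) * (u - 1) * x := by noncomm_ring
      _ = e * (u - 1) * e * (x * (u - 1)) * x := by rw [c1.eq]; noncomm_ring
      _ = -(u' * ((u - 1) * (u - 1) * (x * x))) := by rw [t1, cN.eq]; noncomm_ring
      _ = -(u' * (x * x)) * (u - 1) ^ 2 := by
        rw [← ((cN.mul_right cN).mul_left (cN.mul_right cN)).eq]; noncomm_ring
  have cc : Commute (-(u' * (x * x))) ((u - 1) ^ 2) :=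
    ((cu.mul_left (cN.mul_left cN)).neg_left).pow_right 2
  have z : trOn (e * (u - 1) * x) Q = 0 := by
    refine trOn_nil ((he.mul (hu.sub (keeps_one Q))).mul hx) (k := 2 * k) fun v hv => ?_
    rw [pow_mul, pow_two, sq, cc.mul_pow, End.mul_apply, ← pow_mul,
      pow_apply_zero_of_le (show k ≤ 2 * k by omega) (hk v hv), map_zero]
  rw [← q, trOn_sub ((he.mul hu).mul hx) (he.mul hx)] at z
  exact sub_eq_zero.1 z

/-- the count in the graded module. -/
lemma three {s e u c : End ℂ H} (h1 : s * s = e) (hc : c = s * u)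
    (h3 : c ^ 3 = 1) (cu : Commute u e) (hn : Uni u) :
    finrank ℂ (⊤ ⊓ End.eigenspace e 1 : Submodule ℂ H) ≤
      3 * finrank ℂ (⊤ ⊓ End.eigenspace e 1 ⊓ End.eigenspace s 1 : Submodule ℂ H) := by
  have cs : Commute s e := by rw [← h1]; exact (Commute.refl s).mul_right (Commute.refl s)
  have ks : Keeps s (⊤ ⊓ End.eigenspace e 1) := (keeps_top s).inf (keeps_eig cs 1)
  have ku : Keeps u (⊤ ⊓ End.eigenspace e 1) := (keeps_top u).inf (keeps_eig cu 1)
  have kc : Keeps c (⊤ ⊓ End.eigenspace e 1) := hc ▸ ks.mul ku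
  have p3 : 0 < 3 := by norm_num
  obtain ⟨-, a⟩ := trOn_spec kc (Polynomial.nthRootsFinset 3 (1 : ℂ))
    (aeval_roots p3 fun v _ => by rw [h3, End.one_apply])
  rw [a]
  refine (Finset.sum_le_card_nsmul _ _ (finrank ℂ (⊤ ⊓ End.eigenspace e 1 ⊓ End.eigenspace s 1 :
    Submodule ℂ H)) fun z hz => ?_).trans_eq (by
      rw [(Complex.isPrimitiveRoot_exp 3 p3.ne').card_nthRootsFinset, smul_eq_mul])
  have z3 : z ^ 3 = 1 := (Polynomial.mem_nthRootsFinset p3 1).1 hz
  have m : ∀ v ∈ (⊤ ⊓ End.eigenspace e 1 ⊓ End.eigenspace c z : Submodule ℂ H),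
      ((1 + s) * u) v ∈ (⊤ ⊓ End.eigenspace e 1 ⊓ End.eigenspace s 1 : Submodule ℂ H) := by
    intro v hv
    refine ⟨((keeps_one _).add ks).mul ku v hv.1, End.mem_eigenspace_iff.2 ?_⟩
    have w := End.mem_eigenspace_iff.1 (ku v hv.1).2
    rw [← h1, End.mul_apply, one_smul] at w
    rw [End.mul_apply, LinearMap.add_apply, End.one_apply, map_add, w, one_smul, add_comm]
  refine LinearMap.finrank_le_finrank_of_injective (f := LinearMap.restrict ((1 + s) * u) m) ?_
  rw [injective_iff_map_eq_zero]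
  intro v h0
  have h4 : u v.1 + c v.1 = 0 := by
    rw [LinearMap.congr_fun hc v.1]
    exact congrArg Subtype.val h0
  rw [End.mem_eigenspace_iff.1 v.2.2] at h4
  refine Subtype.ext ((hn.on ⊤).eig Submodule.mem_top (c := -z) ?_ ?_)
  · rw [neg_smul]
    exact eq_neg_of_add_eq_zero_left h4
  · intro h5
    rw [neg_eq_iff_eq_neg.1 h5] at z3
    norm_num at z3

end lin

section rep
variable {ι H : Type} [DecidableEq ι] [AddCommGroup H] [Module ℂ H] (r : Rep ι H) {a b : ι}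
  (Q : Submodule ℂ H)

lemma ep_ap (a : ι) (v : H) : r (ep a) (r (ep a) v) = v := by
  rw [← End.mul_apply, ← map_mul, ep_sq, map_one, End.one_apply]

lemma sec_pos : Q ⊓ End.eigenspace (r (ep a * ep b)) 1 ⊓ End.eigenspace (r (ep a)) 1 =
    Q ⊓ Sec r {a, b} ∅ := by
  rw [inf_assoc]
  congr 1
  ext v
  simp only [Submodule.mem_inf, End.mem_eigenspace_iff, Sec, mem_JE, one_smul, Finset.mem_insert,
    Finset.mem_singleton, forall_eq_or_imp, forall_eq, Finset.notMem_empty, if_false, map_mul,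
    End.mul_apply]
  constructor
  · rintro ⟨h1, h2⟩
    refine ⟨h2, ?_⟩
    have := congrArg (r (ep a)) h1
    rwa [ep_ap, h2] at this
  · rintro ⟨h1, h2⟩
    exact ⟨by rw [h2, h1], h1⟩

lemma sec_neg : Q ⊓ End.eigenspace (r (ep a * ep b)) 1 ⊓ End.eigenspace (r (ep a)) (-1) =
    Q ⊓ Sec r {a, b} {a, b} := by
  rw [inf_assoc]
  congr 1
  ext v
  simp only [Submodule.mem_inf, End.mem_eigenspace_iff, Sec, mem_JE, one_smul, Finset.mem_insert,
    Finset.mem_singleton, forall_eq_or_imp, forall_eq, true_or, or_true, if_true, map_mul,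
    End.mul_apply, neg_smul]
  constructor
  · rintro ⟨h1, h2⟩
    refine ⟨h2, ?_⟩
    have := congrArg (r (ep a)) h1
    rwa [ep_ap, h2] at this
  · rintro ⟨h1, h2⟩
    exact ⟨by rw [h2, map_neg, h1, neg_neg], h1⟩

lemma ta_ep (a b : ι) : ta a b * ep a = ep b * ta a b := by
  have := pm_ep (swap a b) a
  rwa [swap_apply_left] at this

lemma ta_ep' (a b : ι) : ta a b * ep b = ep a * ta a b := by
  have := pm_ep (swap a b) b
  rwa [swap_apply_right] at this

lemma epep_sq (a b : ι) : ep a * ep b * (ep a * ep b) = 1 := by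
  rw [mul_assoc, ← mul_assoc (ep b), ← (ep_comm a b).eq, mul_assoc, ep_sq, mul_one, ep_sq]

/-- on the part fixed by the product of the two sign changes the two operators commute. -/
lemma comm_on (v : H) (hv : v ∈ Q ⊓ End.eigenspace (r (ep a * ep b)) 1) :
    r (ep a * ta a b) (r (ep a) v) = r (ep a) (r (ep a * ta a b) v) := by
  have h1 := End.mem_eigenspace_iff.1 hv.2
  rw [one_smul] at h1
  have e : ep a * ta a b * ep a = ep a * (ep a * ta a b) * (ep a * ep b) := by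
    calc ep a * ta a b * ep a = ep a * (ta a b * (ep a * (ep b * ep b))) := by
          rw [ep_sq, mul_one, mul_assoc]
      _ = ep a * (ta a b * ep b) * (ep a * ep b) := by
          rw [← mul_assoc (ep a) (ep b), (ep_comm a b).eq]
          simp only [mul_assoc]
          rw [(ep_comm a b).eq]
      _ = _ := by rw [ta_ep']
  rw [← End.mul_apply, ← map_mul, e, map_mul, map_mul, End.mul_apply, End.mul_apply, h1]

end rep

theorem sconv : SConv := by
  intro ι H _ _ _ _ _ r a b Q hab hQ hu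
  have ma : a ∈ ({a, b} : Set ι) := Set.mem_insert _ _
  have mb : b ∈ ({a, b} : Set ι) := Set.mem_insert_of_mem _ rfl
  have ka := hQ _ (ep_mem_On ma)
  have kb := hQ _ (ep_mem_On mb)
  have kt := hQ _ (ta_mem_On ma mb)
  have P : ∀ x : End ℂ H, Keeps x Q → (∀ α ∈ On ({a, b} : Set ι), Commute x (r α)) →
      trOn (r (ta a b) * x) Q = trOn (r (ep a) * x) Q := by
    intro x hx cx
    have mu : ep a * la a b ∈ On ({a, b} : Set ι) := mul_mem (ep_mem_On ma) (la_mem_On ma mb)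
    have mr : rh b a ∈ On ({a, b} : Set ι) := rh_mem_On mb ma
    rw [← tr_uni (u' := r (rh b a)⁻¹) ka (hQ _ mr) hx
      (by rw [← map_mul, inv_mul_cancel, map_one]) (by rw [← map_mul, mul_inv_cancel, map_one])
      (by rw [← map_mul, ← map_mul]; exact congrArg r ((N0 ι).ε_right b a hab.symm))
      (by rw [← map_mul, ep_sq, map_one]) (cx _ (ep_mem_On ma)) (cx _ mr) hu,
      ← map_mul, ep_rh_conj hab, map_mul, map_mul, mul_assoc, ← (cx _ (inv_mem mu)).eq, mul_assoc,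
      trOn_mul_comm (hQ _ mu) (kt.mul (hx.mul (hQ _ (inv_mem mu)))), mul_assoc, mul_assoc,
      ← map_mul, inv_mul_cancel, map_one, mul_one]
  refine ⟨P, ?_⟩
  have P1 := P 1 (keeps_one Q) fun α _ => Commute.one_left _
  rw [mul_one, mul_one] at P1
  have ke : Keeps (r (ep a * ep b)) Q := hQ _ (mul_mem (ep_mem_On ma) (ep_mem_On mb))
  have ks : Keeps (r (ep a * ta a b)) Q := hQ _ (mul_mem (ep_mem_On ma) (ta_mem_On ma mb))
  have ee : ∀ v ∈ Q, r (ep a * ep b) (r (ep a * ep b) v) = v := fun v _ => by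
    rw [← End.mul_apply, ← map_mul, epep_sq, map_one, End.one_apply]
  have cm : ∀ {α : A ι}, α * (ep a * ep b) = ep a * ep b * α → ∀ v ∈ Q,
      r α (r (ep a * ep b) v) = r (ep a * ep b) (r α v) := fun h v _ => by
    rw [← End.mul_apply, ← End.mul_apply, ← map_mul, ← map_mul, h]
  have ct : ta a b * (ep a * ep b) = ep a * ep b * ta a b := by
    rw [← mul_assoc, ta_ep, mul_assoc, ta_ep', ← mul_assoc, (ep_comm a b).eq]
  have ca : ep a * (ep a * ep b) = ep a * ep b * ep a := by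
    rw [mul_assoc, (ep_comm a b).eq]
  have cs : ep a * ta a b * (ep a * ep b) = ep a * ep b * (ep a * ta a b) := by
    rw [mul_assoc, ct, ← mul_assoc, ca, mul_assoc]
  obtain ⟨t1, t2⟩ := split ke ee kt (cm ct)
  obtain ⟨a1, a2⟩ := split ke ee ka (cm ca)
  have t3 : trOn (r (ta a b) * r (ep a * ep b)) Q = trOn (r (ta a b)) Q := by
    rw [← map_mul, ← mul_assoc, ta_ep, map_mul, map_mul, trOn_mul_comm (kb.mul kt) kb,
      ← mul_assoc, ← map_mul, ep_sq, map_one, one_mul]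
  have a3 : trOn (r (ep a) * r (ep a * ep b)) Q = trOn (r (ep a)) Q := by
    have e : ep b = ta a b * ep a * ta a b := by rw [ta_ep, mul_assoc, ta_sq, mul_one]
    rw [← map_mul, ← mul_assoc, ep_sq, one_mul, e, map_mul, map_mul, trOn_mul_comm (kt.mul ka) kt,
      ← mul_assoc, ← map_mul, ta_sq, map_one, one_mul]
  have ka' := keeps_part ka (cm ca) 1
  have ks' := keeps_part ks (cm cs) 1
  have kt' := keeps_part kt (cm ct) 1
  have aa : ∀ v ∈ Q ⊓ End.eigenspace (r (ep a * ep b)) 1, r (ep a) (r (ep a) v) = v :=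
    fun v _ => ep_ap r a v
  obtain ⟨-, s2⟩ := split ka' aa ks' (comm_on r Q)
  obtain ⟨-, d2⟩ := split ka' aa (keeps_one _) fun _ _ => rfl
  have s3 : trOn (r (ep a * ta a b) * r (ep a)) (Q ⊓ End.eigenspace (r (ep a * ep b)) 1) =
      trOn (r (ta a b)) (Q ⊓ End.eigenspace (r (ep a * ep b)) 1) := by
    rw [trOn_mul_comm ks' ka', ← map_mul, ← mul_assoc, ep_sq, one_mul]
  have ss : ∀ v ∈ Q ⊓ End.eigenspace (r (ep a * ep b)) 1,
      r (ep a * ta a b) (r (ep a * ta a b) v) = v := fun v hv => by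
    rw [← End.mul_apply, ← map_mul, epta_sq hab, End.mem_eigenspace_iff.1 hv.2, one_smul]
  obtain ⟨i1, -⟩ := trOn_invol (keeps_part ks' (comm_on r Q) 1) fun v hv => ss v hv.1
  obtain ⟨i2, -⟩ := trOn_invol (keeps_part ks' (comm_on r Q) (-1)) fun v hv => ss v hv.1
  rw [one_mul, trOn_one, trOn_one] at d2
  rw [sec_pos] at i1 s2 d2
  rw [sec_neg] at i2 s2 d2
  have : (finrank ℂ (Q ⊓ Sec r {a, b} ∅ ⊓ End.eigenspace (r (ep a * ta a b)) (-1) :
      Submodule ℂ H) : ℂ) = finrank ℂ (Q ⊓ Sec r {a, b} {a, b} ⊓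
        End.eigenspace (r (ep a * ta a b)) (-1) : Submodule ℂ H) := by
    linear_combination (1 / 2 : ℂ) * (i1 - i2 + s2 - s3 - d2) +
      (1 / 4 : ℂ) * (t1 + t2 - t3 - a1 - a2 + a3) - (1 / 2 : ℂ) * P1
  exact_mod_cast this

theorem sr5 (h : SGR) : SR5 := by
  intro ι H _ _ _ _ _ r a b Q hab hQ hu hI
  have ma : a ∈ ({a, b} : Set ι) := Set.mem_insert _ _
  have mb : b ∈ ({a, b} : Set ι) := Set.mem_insert_of_mem _ rfl
  have nU : ((H79.X.IO ({a, b} : Set ι)).subgroupOf (On ({a, b} : Set ι))).Normal :=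
    ⟨fun n hn g => IO_conj g.2 hn⟩
  obtain ⟨H', _, _, _, ρ, tr, one, un⟩ := h H (On ({a, b} : Set ι))
    (r.comp (On ({a, b} : Set ι)).subtype) Q _ (fun g => hQ _ g.2) nU fun u hu => (hI _ hu).on Q
  let s : On ({a, b} : Set ι) := ⟨ep a * ta a b, mul_mem (ep_mem_On ma) (ta_mem_On ma mb)⟩
  let e : On ({a, b} : Set ι) := ⟨ep a * ep b, mul_mem (ep_mem_On ma) (ep_mem_On mb)⟩
  let u : On ({a, b} : Set ι) := ⟨rh a b, rh_mem_On ma mb⟩
  let l : On ({a, b} : Set ι) := ⟨la a b, la_mem_On ma mb⟩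
  have q1 : s * s = e := Subtype.ext (epta_sq hab)
  have q2 : e * e = 1 := Subtype.ext (epep_sq a b)
  have q3 : (s * u) ^ 3 = 1 := Subtype.ext (by
    have := cc_cube hab
    rwa [cc_eq hab] at this)
  have q4 : e * u * e = l := Subtype.ext (epep_rh hab)
  have q5 : ρ u = ρ l := by
    have := one (u * l⁻¹) (kk_mem_IO hab)
    rw [← mul_one (ρ u), ← map_one ρ, ← inv_mul_cancel l, map_mul, ← mul_assoc, ← map_mul, this,
      one_mul]
  have cu : Commute (ρ u) (ρ e) := by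
    have : u * e = e * l := by rw [← q4, ← mul_assoc, ← mul_assoc, q2, one_mul]
    rw [Commute, SemiconjBy, ← map_mul, this, map_mul, q5]
  have T := three (s := ρ s) (e := ρ e) (u := ρ u) (by rw [← map_mul, q1]) rfl
    (by rw [← map_mul, ← map_pow, q3, map_one]) cu (un u hu)
  obtain ⟨x1, x2⟩ := dims (s := ρ s) (e := ρ e) (keeps_top _) (by rw [← map_mul, q1])
    (by rw [← map_mul, q2, map_one])
  obtain ⟨y1, y2⟩ := dims (s := r (ep a * ta a b)) (e := r (ep a * ep b)) (hQ _ s.2)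
    (by rw [← map_mul, epta_sq hab]) (by rw [← map_mul, epep_sq, map_one])
  have z1 : trOn (1 : End ℂ H') ⊤ = trOn 1 Q := by
    have := tr 1
    rwa [map_one ρ, map_one (r.comp _), ← trOn_top] at this
  have z2 : trOn (ρ e) ⊤ = trOn (r (ep a * ep b)) Q := trOn_top.trans (tr e)
  have z3 : trOn (ρ s) ⊤ = trOn (r (ep a * ta a b)) Q := trOn_top.trans (tr s)
  have z4 : trOn (ρ s * ρ e) ⊤ = trOn (r (ep a * ta a b) * r (ep a * ep b)) Q := by
    have := tr (s * e)
    rwa [map_mul ρ, map_mul (r.comp _), ← trOn_top] at this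
  have w1 : finrank ℂ (⊤ ⊓ End.eigenspace (ρ e) 1 : Submodule ℂ H') =
      finrank ℂ (Q ⊓ End.eigenspace (r (ep a * ep b)) 1 : Submodule ℂ H) := by
    have : (finrank ℂ (⊤ ⊓ End.eigenspace (ρ e) 1 : Submodule ℂ H') : ℂ) =
        finrank ℂ (Q ⊓ End.eigenspace (r (ep a * ep b)) 1 : Submodule ℂ H) := by
      rw [z1, z2] at x1
      exact mul_left_cancel₀ two_ne_zero (x1.trans y1.symm)
    exact_mod_cast this
  have w2 : finrank ℂ (⊤ ⊓ End.eigenspace (ρ e) 1 ⊓ End.eigenspace (ρ s) 1 : Submodule ℂ H') =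
      finrank ℂ (Q ⊓ End.eigenspace (r (ep a * ep b)) 1 ⊓ End.eigenspace (r (ep a * ta a b)) 1 :
        Submodule ℂ H) := by
    have : (finrank ℂ (⊤ ⊓ End.eigenspace (ρ e) 1 ⊓ End.eigenspace (ρ s) 1 : Submodule ℂ H') : ℂ) =
        finrank ℂ (Q ⊓ End.eigenspace (r (ep a * ep b)) 1 ⊓ End.eigenspace (r (ep a * ta a b)) 1 :
          Submodule ℂ H) := by
      rw [z1, z2, z3, z4] at x2
      exact mul_left_cancel₀ (by norm_num : (4 : ℂ) ≠ 0) (x2.trans y2.symm)
    exact_mod_cast this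
  rw [w1, w2] at T
  have ka : Keeps (r (ep a)) (Q ⊓ End.eigenspace (r (ep a * ep b)) 1) :=
    (hQ _ (ep_mem_On ma)).inf (keeps_eig
      (((Commute.refl (ep a)).mul_right (ep_comm a b)).map r) 1)
  obtain ⟨-, i1⟩ := trOn_invol ka fun v _ => ep_ap r a v
  obtain ⟨-, i2⟩ := trOn_invol (keeps_part ka (fun v hv => (comm_on r Q v hv).symm) 1)
    fun v _ => ep_ap r a v
  rw [inf_right_comm _ _ (End.eigenspace (r (ep a)) 1),
    inf_right_comm _ _ (End.eigenspace (r (ep a)) (-1))] at i2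
  rw [sec_pos, sec_neg] at i1 i2
  rw [← i1, ← i2]
  exact T

theorem sr1 (h : SGR) : SR1 := by
  intro ι H _ _ _ _ _ r a b e Q hn hQ hu
  have h2 : a ≠ e := by rintro rfl; simp at hn
  have h3 : b ≠ e := by rintro rfl; simp at hn
  have ma : a ∈ ({a, b} : Set ι) := Set.mem_insert _ _
  have mb : b ∈ ({a, b} : Set ι) := Set.mem_insert_of_mem _ rfl
  have ne : e ∉ ({a, b} : Set ι) := by simp [h2.symm, h3.symm]
  have sub : ({a, b} : Set ι) ⊆ {a, b, e} := by
    rintro x (rfl | rfl) <;> simp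
  have sub' : ({a, b} : Set ι) ⊆ {e}ᶜ := by
    rintro x (rfl | rfl) <;> simpa
  have me : e ∈ ({a, b, e} : Set ι) := by simp
  let U : Subgroup (A ι) := (FS ({a, b} : Set ι)).map (Rw e)
  have cj : ∀ α ∈ On ({a, b} : Set ι), ∀ x ∈ U, α * x * α⁻¹ ∈ U := by
    rintro α hα _ ⟨w, hw, rfl⟩
    exact ⟨α w, (hα.2 w).2 hw, (On_conj_Rw hα ne (FS_mono sub' hw)).symm⟩
  have nm : ∀ α ∈ On ({a, b} : Set ι), α ∈ Subgroup.normalizer (U : Set (A ι)) := by
    intro α hα
    refine Subgroup.mem_normalizer_iff.2 fun x => ⟨cj α hα x, fun hx => ?_⟩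
    have := cj α⁻¹ (inv_mem hα) _ hx
    rwa [show α⁻¹ * (α * x * α⁻¹) * α⁻¹⁻¹ = x by group] at this
  let G : Subgroup (A ι) := On ({a, b, e} : Set ι) ⊓ Subgroup.normalizer (U : Set (A ι))
  have nU : (U.subgroupOf G).Normal :=
    ⟨fun n hn g => (Subgroup.mem_normalizer_iff.1 g.2.2 n.1).1 hn⟩
  obtain ⟨H', _, _, _, ρ, tr, one, -⟩ := h H G (r.comp G.subtype) Q _ (fun g => hQ _ g.2.1) nU
    fun u hu' => by
      obtain ⟨w, hw, e⟩ := hu'
      have := hu w hw
      rw [e] at this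
      exact this
  have mw : (FreeGroup.of a)⁻¹ ∈ FS ({a, b} : Set ι) := inv_mem (of_mem_FS ma)
  have mU : Rw e (FreeGroup.of a)⁻¹ ∈ U := ⟨_, mw, rfl⟩
  let c : G := ⟨cc a b, On_mono sub (cc_mem_On ma mb), nm _ (cc_mem_On ma mb)⟩
  let u : G := ⟨Rw e (FreeGroup.of a)⁻¹, Rw_mem_On me (FS_mono sub mw), Subgroup.le_normalizer mU⟩
  have z1 : LinearMap.trace ℂ H' (ρ c) = trOn (r (cc a b)) Q := tr c
  have z2 : LinearMap.trace ℂ H' (ρ (u * c)) = trOn (r (Rw e (FreeGroup.of a)⁻¹ * cc a b)) Q := tr (u * c)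
  rw [map_mul, one u mU, one_mul, z1, Rw_cc hn] at z2
  have mv : ep e * rh a e * rh b e ∈ On ({a, b, e} : Set ι) :=
    mul_mem (mul_mem (ep_mem_On me) (rh_mem_On (sub ma) me)) (rh_mem_On (sub mb) me)
  have mt : ta a b * ta b e ∈ On ({a, b, e} : Set ι) :=
    mul_mem (ta_mem_On (sub ma) (sub mb)) (ta_mem_On (sub mb) me)
  rw [z2, map_mul, trOn_mul_comm (hQ _ (mul_mem mv mt)) (hQ _ (inv_mem mv)), ← map_mul,
    ← mul_assoc, inv_mul_cancel, one_mul]

end Pool.Agent.MP_3ce0a0_al.H88
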